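import Pool.Agent.Q273.AD.Stm
import Pool.Agent.Q6.MV.Pig

/-! Project AD (helper273), job PIG3 (helper153): pigeonhole with a box of any shape. -/

set_option autoImplicit false
set_option linter.unusedSectionVars false

open NumberField NumberField.mixedEmbedding NumberField.InfinitePlace Finset Pool.Agent.Q6.MV

namespace Pool.Agent.Q153.AD

variable {K : Type} [Field K] [NumberField K]

/-- the complex component at an infinite place -/
noncomputable def zc (w : InfinitePlace K) (v : mixedSpace K) : ℂ := by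
  classical
  exact if h : w.IsReal then ((v.1 ⟨w, h⟩ : ℝ) : ℂ) else v.2 ⟨w, not_isReal_iff_isComplex.mp h⟩

theorem zc_sub (w : InfinitePlace K) (v v' : mixedSpace K) : zc w (v - v') = zc w v - zc w v' := by
  unfold zc
  split_ifs
  · rw [Prod.fst_sub, Pi.sub_apply, Complex.ofReal_sub]
  · rw [Prod.snd_sub, Pi.sub_apply]

theorem norm_zc (w : InfinitePlace K) (v : mixedSpace K) : normAtPlace w v = ‖zc w v‖ := by
  unfold zc
  split_ifs with h
  · rw [normAtPlace_apply_of_isReal h, Complex.norm_real]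
  · rw [normAtPlace_apply_of_isComplex (not_isReal_iff_isComplex.mp h)]

theorem zc_im (w : InfinitePlace K) (h : w.IsReal) (v : mixedSpace K) : (zc w v).im = 0 := by
  unfold zc
  rw [dif_pos h, Complex.ofReal_im]

/-- the real coordinates at an infinite place -/
noncomputable def co (w : InfinitePlace K) (i : ℕ) (v : mixedSpace K) : ℝ :=
  if i = 0 then (zc w v).re else (zc w v).im

theorem co_sub (w : InfinitePlace K) (i : ℕ) (v v' : mixedSpace K) :
    co w i (v - v') = co w i v - co w i v' := by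
  unfold co
  rw [zc_sub, Complex.sub_re, Complex.sub_im]
  split_ifs <;> rfl

theorem co_le (w : InfinitePlace K) (i : ℕ) (v : mixedSpace K) : |co w i v| ≤ normAtPlace w v := by
  rw [norm_zc]
  unfold co
  split_ifs
  · exact Complex.abs_re_le_norm _
  · exact Complex.abs_im_le_norm _

theorem norm_le_of_co (w : InfinitePlace K) (v : mixedSpace K) {Y : ℝ} (hY : 0 ≤ Y)
    (h : ∀ i, i < w.mult → |co w i v| ≤ Y) : normAtPlace w v ≤ 2 * Y := by
  rw [norm_zc]
  refine (Complex.norm_le_abs_re_add_abs_im _).trans ?_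
  have h0 : |(zc w v).re| ≤ Y := by
    have := h 0 w.mult_pos
    unfold co at this
    rwa [if_pos rfl] at this
  by_cases hr : w.IsReal
  · rw [zc_im w hr, abs_zero]
    linarith
  · have h1 := h 1 (by
      have : w.mult = 2 := IsComplex.mult_eq_two (not_isReal_iff_isComplex.mp hr)
      omega)
    unfold co at h1
    rw [if_neg one_ne_zero] at h1
    linarith

/-- two numbers in the same cell -/
theorem cell {a Y s t : ℝ} (hY : 0 < Y) (hs : |s| ≤ a) (ht : |t| ≤ a)
    (h : ⌊(s + a) / Y⌋₊ = ⌊(t + a) / Y⌋₊) : |s - t| ≤ Y := by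
  rw [abs_le] at hs ht
  have h1 := Nat.floor_le (show 0 ≤ (s + a) / Y from div_nonneg (by linarith) hY.le)
  have h2 := Nat.lt_floor_add_one ((s + a) / Y)
  have h3 := Nat.floor_le (show 0 ≤ (t + a) / Y from div_nonneg (by linarith) hY.le)
  have h4 := Nat.lt_floor_add_one ((t + a) / Y)
  rw [h] at h1 h2
  have h5 : |(s + a) / Y - (t + a) / Y| ≤ 1 := by
    rw [abs_le]
    constructor <;> linarith
  have h6 : (s + a) / Y - (t + a) / Y = (s - t) / Y := by ring
  rw [h6, abs_div, abs_of_pos hY, div_le_one hY] at h5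
  exact h5

theorem cell_lt {a Y s : ℝ} (hY : 0 < Y) (hs : |s| ≤ a) : ⌊(s + a) / Y⌋₊ < ⌊2 * a / Y⌋₊ + 1 := by
  rw [abs_le] at hs
  refine Nat.lt_succ_of_le (Nat.floor_le_floor ?_)
  exact div_le_div_of_nonneg_right (by linarith) hY.le

theorem pig3 : Q273.AD.S_PIG3 := by
  classical
  intro K _ _ n ξ
  set d := Module.finrank ℚ K with hd
  have hd1 : 1 ≤ d := Module.finrank_pos
  set S : ℝ := ∑ w : InfinitePlace K, Sw w with hSd
  set Ξ : ℝ := ∑ w : InfinitePlace K, ∑ j, normAtPlace w (ξ j) with hΞ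
  have hS : ∀ w : InfinitePlace K, Sw w ≤ S := fun w =>
    Finset.single_le_sum (f := fun v : InfinitePlace K => Sw v) (fun v _ => Sw_nonneg v)
      (Finset.mem_univ w)
  have hS0 : 0 ≤ S := Finset.sum_nonneg fun v _ => Sw_nonneg v
  have hΞ1 : ∀ (w : InfinitePlace K) (j : Fin n), normAtPlace w (ξ j) ≤ Ξ := fun w j =>
    (Finset.single_le_sum (f := fun j => normAtPlace w (ξ j)) (fun v _ => normAtPlace_nonneg _ _)
      (Finset.mem_univ j)).trans
    (Finset.single_le_sum (f := fun w : InfinitePlace K => ∑ j, normAtPlace w (ξ j))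
      (fun v _ => Finset.sum_nonneg fun j _ => normAtPlace_nonneg _ _) (Finset.mem_univ w))
  have hΞ0 : 0 ≤ Ξ := Finset.sum_nonneg fun v _ => Finset.sum_nonneg fun j _ => normAtPlace_nonneg _ _
  set c0 : ℝ := 1 + S * (1 + Ξ) with hc0
  have hc01 : 1 ≤ c0 := by
    have : 0 ≤ S * (1 + Ξ) := mul_nonneg hS0 (by linarith)
    linarith
  have hSc : S ≤ c0 := by
    have : 0 ≤ S * Ξ := mul_nonneg hS0 hΞ0
    rw [hc0]
    linarith
  refine ⟨(2 * c0 + 1) ^ (n * d + 1), one_le_pow₀ (by linarith), ?_⟩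
  intro A _ _ φ X Y hX hY hYX hcard
  have hX0 : (0 : ℝ) < X := by linarith
  have hCge : 2 * c0 + 1 ≤ (2 * c0 + 1) ^ (n * d + 1) := by
    rw [pow_succ]
    refine le_mul_of_one_le_left (by linarith) (one_le_pow₀ (by linarith))
  have : Fintype A := Fintype.ofFinite A
  set M : ℕ := ⌊X⌋₊ with hM
  have hMX : (M : ℝ) ≤ X := Nat.floor_le hX0.le
  have hXM : X < M + 1 := Nat.lt_floor_add_one X
  set N : InfinitePlace K → ℕ := fun w => ⌊2 * (c0 * X) / Y w⌋₊ + 1 with hN
  -- the elements
  let β : (BI K → Fin (M + 1)) → 𝓞 K := fun c => comb fun i => ((c i : ℕ) : ℤ)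
  let vec : (Fin (n + 1) → BI K → Fin (M + 1)) → Fin (n + 1) → 𝓞 K := fun c j => β (c j)
  let val : (Fin (n + 1) → BI K → Fin (M + 1)) → Fin n → mixedSpace K := fun c j =>
    mixedEmbedding K ((vec c 0 : 𝓞 K) : K) * ξ j - mixedEmbedding K ((vec c j.succ : 𝓞 K) : K)
  have hβ : ∀ (c : BI K → Fin (M + 1)) (w : InfinitePlace K), w ((β c : 𝓞 K) : K) ≤ X * S := by
    intro c w
    refine (comb_size w _ X ?_).trans (mul_le_mul_of_nonneg_left (hS w) hX0.le)
    intro i
    have h2 : ((c i : ℕ) : ℝ) ≤ M := by exact_mod_cast Nat.lt_succ_iff.1 (c i).2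
    have h4 : (0 : ℝ) ≤ ((c i : ℕ) : ℝ) := Nat.cast_nonneg _
    push_cast
    rw [abs_of_nonneg h4]
    linarith
  have hval : ∀ c j (w : InfinitePlace K), normAtPlace w (val c j) ≤ c0 * X := by
    intro c j w
    have h1 : normAtPlace w (val c j) ≤
        normAtPlace w (mixedEmbedding K ((vec c 0 : 𝓞 K) : K) * ξ j) +
        normAtPlace w (mixedEmbedding K ((vec c j.succ : 𝓞 K) : K)) := by
      have := normAtPlace_add_le w (mixedEmbedding K ((vec c 0 : 𝓞 K) : K) * ξ j)
        (-mixedEmbedding K ((vec c j.succ : 𝓞 K) : K))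
      rw [normAtPlace_neg, ← sub_eq_add_neg] at this
      exact this
    rw [map_mul, normAtPlace_apply, normAtPlace_apply] at h1
    refine h1.trans ?_
    have h2 := hβ (c 0) w
    have h3 := hβ (c j.succ) w
    have h4 := hΞ1 w j
    have h5 := normAtPlace_nonneg w (ξ j)
    have h6 : w ((vec c 0 : 𝓞 K) : K) * normAtPlace w (ξ j) ≤ X * S * Ξ :=
      mul_le_mul h2 h4 h5 (mul_nonneg hX0.le hS0)
    have h7 : w ((vec c j.succ : 𝓞 K) : K) ≤ X * S := h3
    have h8 : c0 * X = X + X * S + X * S * Ξ := by rw [hc0]; ring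
    rw [h8]
    linarith
  have hco : ∀ c j (w : InfinitePlace K) i, |co w i (val c j)| ≤ c0 * X := fun c j w i =>
    (co_le w i _).trans (hval c j w)
  -- the cells
  let fl : (Fin (n + 1) → BI K → Fin (M + 1)) → Fin n → (w : InfinitePlace K) → Fin w.mult → Fin (N w) :=
    fun c j w i => ⟨⌊(co w i (val c j) + c0 * X) / Y w⌋₊, cell_lt (hY w) (hco c j w i)⟩
  let F : (Fin (n + 1) → BI K → Fin (M + 1)) →
      (Fin n → (w : InfinitePlace K) → Fin w.mult → Fin (N w)) × A := fun c => (fl c, φ (vec c))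
  have hNw : ∀ w, (N w : ℝ) ≤ (2 * c0 + 1) * (X / Y w) := by
    intro w
    have h1 := Nat.floor_le (show 0 ≤ 2 * (c0 * X) / Y w from div_nonneg (by positivity) (hY w).le)
    have h2 : 1 ≤ X / Y w := by
      rw [one_le_div (hY w)]
      exact hYX w
    simp only [hN]
    push_cast
    have h3 : 2 * (c0 * X) / Y w = 2 * c0 * (X / Y w) := by ring
    linarith
  have hlt : Fintype.card ((Fin n → (w : InfinitePlace K) → Fin w.mult → Fin (N w)) × A) <
      Fintype.card (Fin (n + 1) → BI K → Fin (M + 1)) := by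
    have hc1 : Fintype.card (Fin (n + 1) → BI K → Fin (M + 1)) = (M + 1) ^ (d * (n + 1)) := by
      rw [Fintype.card_fun, Fintype.card_fun, Fintype.card_fin, Fintype.card_fin, card_BI, ← pow_mul]
    have hc2 : Fintype.card ((Fin n → (w : InfinitePlace K) → Fin w.mult → Fin (N w)) × A) =
        (∏ w : InfinitePlace K, N w ^ w.mult) ^ n * Nat.card A := by
      rw [Fintype.card_prod, Fintype.card_fun, Fintype.card_pi, Fintype.card_fin,
        Nat.card_eq_fintype_card]
      congr 2
      refine Finset.prod_congr rfl fun w _ => ?_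
      rw [Fintype.card_fun, Fintype.card_fin, Fintype.card_fin]
    rw [hc1, hc2]
    have hA0 : (0 : ℝ) ≤ (Nat.card A : ℝ) := Nat.cast_nonneg _
    have h1 : (((∏ w : InfinitePlace K, N w ^ w.mult) ^ n * Nat.card A : ℕ) : ℝ) <
        (((M + 1) ^ (d * (n + 1)) : ℕ) : ℝ) := by
      push_cast
      have h2 : (∏ w : InfinitePlace K, (N w : ℝ) ^ w.mult) ≤
          (2 * c0 + 1) ^ d * ∏ w : InfinitePlace K, (X / Y w) ^ w.mult := by
        calc (∏ w : InfinitePlace K, (N w : ℝ) ^ w.mult)
            ≤ ∏ w : InfinitePlace K, ((2 * c0 + 1) * (X / Y w)) ^ w.mult :=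
              Finset.prod_le_prod (fun w _ => by positivity) fun w _ =>
                pow_le_pow_left₀ (Nat.cast_nonneg _) (hNw w) _
          _ = _ := by
              rw [hd, ← InfinitePlace.sum_mult_eq, ← Finset.prod_pow_eq_pow_sum,
                ← Finset.prod_mul_distrib]
              exact Finset.prod_congr rfl fun w _ => mul_pow _ _ _
      have h3 : (∏ w : InfinitePlace K, (X / Y w) ^ (n * w.mult)) =
          (∏ w : InfinitePlace K, (X / Y w) ^ w.mult) ^ n := by
        rw [← Finset.prod_pow]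
        refine Finset.prod_congr rfl fun w _ => ?_
        rw [← pow_mul, mul_comm]
      have h4 : 0 ≤ ∏ w : InfinitePlace K, (X / Y w) ^ w.mult :=
        Finset.prod_nonneg fun w _ => pow_nonneg (div_nonneg hX0.le (hY w).le) _
      have h5 : (∏ w : InfinitePlace K, (N w : ℝ) ^ w.mult) ^ n ≤
          (2 * c0 + 1) ^ (n * d + 1) * ∏ w : InfinitePlace K, (X / Y w) ^ (n * w.mult) := by
        rw [h3]
        refine (pow_le_pow_left₀ (Finset.prod_nonneg fun w _ => by positivity) h2 n).trans ?_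
        rw [mul_pow, ← pow_mul, mul_comm d n]
        refine mul_le_mul_of_nonneg_right ?_ (pow_nonneg h4 _)
        exact pow_le_pow_right₀ (by linarith) (by omega)
      calc (∏ w : InfinitePlace K, (N w : ℝ) ^ w.mult) ^ n * (Nat.card A : ℝ)
          ≤ (2 * c0 + 1) ^ (n * d + 1) * (∏ w : InfinitePlace K, (X / Y w) ^ (n * w.mult)) *
            (Nat.card A : ℝ) := mul_le_mul_of_nonneg_right h5 hA0
        _ ≤ X ^ (d * (n + 1)) := hcard
        _ < ((M : ℝ) + 1) ^ (d * (n + 1)) :=
            pow_lt_pow_left₀ hXM hX0.le (by positivity)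
    exact_mod_cast h1
  obtain ⟨c, c', hne, hF⟩ := Fintype.exists_ne_map_eq_of_card_lt F hlt
  have hF1 : ∀ j (w : InfinitePlace K) (i : Fin w.mult),
      ⌊(co w i (val c j) + c0 * X) / Y w⌋₊ = ⌊(co w i (val c' j) + c0 * X) / Y w⌋₊ := by
    intro j w i
    have h1 := congrFun (congrFun (congrFun (congrArg Prod.fst hF) j) w) i
    exact congrArg Fin.val h1
  have hF2 : φ (vec c) = φ (vec c') := congrArg Prod.snd hF
  refine ⟨vec c - vec c', ?_, ?_, ?_, ?_⟩
  · intro h0
    apply hne
    funext j i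
    have h1 : β (c j) = β (c' j) := sub_eq_zero.1 (congrFun h0 j)
    have h3 := congrFun (comb_inj h1) i
    apply Fin.ext
    exact_mod_cast h3
  · rw [map_sub, hF2, sub_self]
  · intro w
    have h1 : (vec c - vec c') 0 =
        comb ((fun i => ((c 0 i : ℕ) : ℤ)) - fun i => ((c' 0 i : ℕ) : ℤ)) := by
      change β (c 0) - β (c' 0) = _
      exact comb_sub _ _
    rw [h1]
    refine (comb_size w _ X ?_).trans ?_
    · intro i
      rw [Pi.sub_apply]
      have h2 : ((c 0 i : ℕ) : ℝ) ≤ M := by exact_mod_cast Nat.lt_succ_iff.1 (c 0 i).2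
      have h3 : ((c' 0 i : ℕ) : ℝ) ≤ M := by exact_mod_cast Nat.lt_succ_iff.1 (c' 0 i).2
      have h4 : (0 : ℝ) ≤ ((c 0 i : ℕ) : ℝ) := Nat.cast_nonneg _
      have h5 : (0 : ℝ) ≤ ((c' 0 i : ℕ) : ℝ) := Nat.cast_nonneg _
      push_cast
      rw [abs_le]
      constructor <;> linarith
    · rw [mul_comm]
      refine mul_le_mul_of_nonneg_right ?_ hX0.le
      have := hS w
      linarith
  · intro w j
    have h1 : mixedEmbedding K (((vec c - vec c') 0 : 𝓞 K) : K) * ξ j -
        mixedEmbedding K (((vec c - vec c') j.succ : 𝓞 K) : K) = val c j - val c' j := by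
      have e1 : (((vec c - vec c') 0 : 𝓞 K) : K) = ((vec c 0 : 𝓞 K) : K) - ((vec c' 0 : 𝓞 K) : K) :=
        map_sub (algebraMap (𝓞 K) K) _ _
      have e2 : (((vec c - vec c') j.succ : 𝓞 K) : K) =
          ((vec c j.succ : 𝓞 K) : K) - ((vec c' j.succ : 𝓞 K) : K) :=
        map_sub (algebraMap (𝓞 K) K) _ _
      rw [e1, e2, map_sub, map_sub, sub_mul]
      change _ = (mixedEmbedding K ((vec c 0 : 𝓞 K) : K) * ξ j -
          mixedEmbedding K ((vec c j.succ : 𝓞 K) : K)) -
        (mixedEmbedding K ((vec c' 0 : 𝓞 K) : K) * ξ j -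
          mixedEmbedding K ((vec c' j.succ : 𝓞 K) : K))
      ring
    rw [h1]
    refine (norm_le_of_co w _ (hY w).le fun i hi => ?_).trans ?_
    · rw [co_sub]
      exact cell (hY w) (hco c j w i) (hco c' j w i) (hF1 j w ⟨i, hi⟩)
    · refine mul_le_mul_of_nonneg_right ?_ (hY w).le
      linarith

end Pool.Agent.Q153.AD
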